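import Mathlib

/-!
Labelled monotone sequences in a poset without chains of three elements.
-/

set_option autoImplicit false

universe u

namespace Pool.Agent.Helper44.GB

set_option linter.unusedSectionVars false

variable {D : Type u} [PartialOrder D]

/-- comparable and different -/
def Cp (a b : D) : Prop := a < b ∨ b < a

/-- reduced walks in the comparability graph, most recent letter first -/
inductive Red : List D → Prop
  | one (a : D) : Red [a]
  | cons (a b : D) (t : List D) (h : Red (b :: t)) (h1 : Cp a b) (h2 : t.head? ≠ some a) :
      Red (a :: b :: t)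

open Classical in
/-- extension of a reduced walk by one letter: stay, pop or push -/
noncomputable def ext : List D → D → List D
  | [], a => [a]
  | [b], a => if a = b then [b] else [a, b]
  | b :: c :: t, a => if a = b then b :: c :: t else if a = c then c :: t else a :: b :: c :: t

/-- equal or neighbours in the tree of reduced walks -/
def Nb (t t' : List D) : Prop := t = t' ∨ (∃ a, t' = a :: t) ∨ (∃ a, t = a :: t')

lemma Nb.symm {t t' : List D} (h : Nb t t') : Nb t' t := by
  rcases h with h | h | h
  · exact Or.inl h.symm
  · exact Or.inr (Or.inr h)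
  · exact Or.inr (Or.inl h)

lemma Cp.ne {a b : D} (h : Cp a b) : a ≠ b := by
  rcases h with h | h
  · exact h.ne
  · exact h.ne'

lemma ext_self (b : D) (t : List D) : ext (b :: t) b = b :: t := by
  cases t with
  | nil => simp [ext]
  | cons c t => simp [ext]

lemma head_ext (t : List D) (a : D) : (ext t a).head? = some a := by
  match t with
  | [] => simp [ext]
  | [b] =>
    by_cases h : a = b
    · simp [ext, h]
    · simp [ext, h]
  | b :: c :: t =>
    by_cases h : a = b
    · simp [ext, h]
    · by_cases h' : a = c
      · subst h'
        simp [ext, h]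
      · simp [ext, h, h']

lemma length_ext (t : List D) (a : D) : (ext t a).length ≤ t.length + 1 := by
  match t with
  | [] => simp [ext]
  | [b] =>
    by_cases h : a = b
    · simp [ext, h]
    · simp [ext, h]
  | b :: c :: t =>
    by_cases h : a = b
    · simp [ext, h]
    · by_cases h' : a = c
      · subst h'
        simp [ext, h]
      · simp [ext, h, h']

lemma nb_ext (b : D) (t : List D) (a : D) : Nb (b :: t) (ext (b :: t) a) := by
  match t with
  | [] =>
    by_cases h : a = b
    · left; simp [ext, h]
    · right; left; exact ⟨a, by simp [ext, h]⟩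
  | c :: t =>
    by_cases h : a = b
    · left; simp [ext, h]
    · by_cases h' : a = c
      · subst h'
        right; right
        exact ⟨b, by simp [ext, h]⟩
      · right; left
        exact ⟨a, by simp [ext, h, h']⟩

lemma red_tail {a b : D} {t : List D} (h : Red (a :: b :: t)) : Red (b :: t) := by
  cases h with
  | cons _ _ _ h _ _ => exact h

lemma red_cp {a b : D} {t : List D} (h : Red (a :: b :: t)) : Cp a b := by
  cases h with
  | cons _ _ _ _ h _ => exact h

lemma red_head {a b : D} {t : List D} (h : Red (a :: b :: t)) : t.head? ≠ some a := by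
  cases h with
  | cons _ _ _ _ _ h => exact h

lemma red_ext {b : D} {t : List D} (h : Red (b :: t)) {a : D} (h1 : a = b ∨ Cp a b) :
    Red (ext (b :: t) a) := by
  match t, h with
  | [], h =>
    by_cases h2 : a = b
    · simp only [ext, h2, if_true]; exact Red.one b
    · simp only [ext, h2, if_false]
      exact Red.cons a b [] h (h1.resolve_left h2) (by simp)
  | c :: t, h =>
    by_cases h2 : a = b
    · simp only [ext, h2, if_true]; exact h
    · by_cases h3 : a = c
      · subst h3
        simp only [ext, h2, if_false, if_true]
        exact red_tail h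
      · simp only [ext, h2, h3, if_false]
        refine Red.cons a b (c :: t) h (h1.resolve_left h2) ?_
        simp only [List.head?_cons, ne_eq, Option.some.injEq]
        exact fun e => h3 e.symm

lemma eq_ext_of_nb {t t' : List D} (ht : Red t) (ht' : Red t') (h : Nb t t') {a : D}
    (ha : t'.head? = some a) : t' = ext t a := by
  rcases h with h | ⟨c, h⟩ | ⟨c, h⟩
  · subst h
    match t, ha with
    | b :: t, ha =>
      simp only [List.head?_cons, Option.some.injEq] at ha
      rw [ha, ext_self]
  · subst h
    simp only [List.head?_cons, Option.some.injEq] at ha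
    subst ha
    match t, ht, ht' with
    | [b], _, ht' =>
      have := (red_cp ht').ne
      simp [ext, this]
    | b :: d :: t, _, ht' =>
      have h1 := (red_cp ht').ne
      have h2 := red_head ht'
      simp only [List.head?_cons, ne_eq, Option.some.injEq] at h2
      have h3 : ¬ c = d := fun e => h2 e.symm
      simp [ext, h1, h3]
  · subst h
    match t', ht', ha with
    | b :: t, _, ha =>
      simp only [List.head?_cons, Option.some.injEq] at ha
      subst ha
      have h1 := (red_cp ht).ne
      have h2 : ¬ b = c := fun e => h1 e.symm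
      simp [ext, h2]

lemma eq_of_nb_head {t t' : List D} (ht : Red t) (ht' : Red t') (h : Nb t t') {a : D}
    (ha : t.head? = some a) (ha' : t'.head? = some a) : t' = t := by
  rw [eq_ext_of_nb ht ht' h ha']
  match t, ha with
  | b :: t, ha =>
    simp only [List.head?_cons, Option.some.injEq] at ha
    rw [ha, ext_self]

lemma last_ext (b : D) (t : List D) (a d : D) (h : [d] <:+ (b :: t)) :
    [d] <:+ ext (b :: t) a := by
  match t, h with
  | [], h =>
    by_cases h1 : a = b
    · simpa [ext, h1] using h
    · simp only [ext, h1, if_false]
      exact h.trans (List.suffix_cons a [b])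
  | c :: t, h =>
    by_cases h1 : a = b
    · simpa only [ext, h1, if_true] using h
    · by_cases h2 : a = c
      · subst h2
        simp only [ext, h1, if_false, if_true]
        rw [List.suffix_cons_iff] at h
        rcases h with h | h
        · simp at h
        · exact h
      · simp only [ext, h1, h2, if_false]
        exact h.trans (List.suffix_cons a _)

lemma crossing {t l l' : List D} (h : Nb l l') (h1 : t <:+ l) (h2 : ¬ t <:+ l') :
    l = t ∧ ∃ a, l = a :: l' := by
  rcases h with h | ⟨a, h⟩ | ⟨a, h⟩
  · exact absurd (h ▸ h1) h2
  · exact absurd (h ▸ h1.trans (List.suffix_cons a l)) h2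
  · subst h
    rw [List.suffix_cons_iff] at h1
    rcases h1 with h1 | h1
    · exact ⟨h1.symm, a, rfl⟩
    · exact absurd h1 h2

lemma red_suffix {l t : List D} (h : Red (l ++ t)) (ht : t ≠ []) : Red t := by
  induction l with
  | nil => exact h
  | cons a l ih =>
    apply ih
    match l, t, ht, h with
    | [], b :: t, _, h => exact red_tail h
    | b :: l, t, _, h => exact red_tail h

section

variable (r : ℕ) (lam : (ℕ → WithTop D) → D)

/-- monotone sequences which are `⊤` from the index `r` on -/
def V (δ : ℕ → WithTop D) : Prop := Monotone δ ∧ ∀ j, r ≤ j → δ j = ⊤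

/-- the shift -/
def sh (δ : ℕ → WithTop D) : ℕ → WithTop D := fun j => δ (j + 1)

/-- the lift of `lam` to reduced walks -/
noncomputable def zz : ℕ → (ℕ → WithTop D) → List D
  | 0, δ => [lam δ]
  | n + 1, δ => ext (zz n (sh δ)) (lam δ)

variable {r lam}

lemma V.sh {δ : ℕ → WithTop D} (h : V r δ) : V r (sh δ) :=
  ⟨fun a b hab => h.1 (by omega), fun j hj => h.2 _ (by omega)⟩

lemma sh_top : sh (fun _ => (⊤ : WithTop D)) = fun _ => ⊤ := rfl

lemma zz_stable (n : ℕ) : ∀ δ : ℕ → WithTop D, (∀ j, n ≤ j → δ j = ⊤) →
    zz lam (n + 1) δ = zz lam n δ := by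
  induction n with
  | zero =>
    intro δ h
    have h1 : sh δ = δ := by
      funext j
      rw [sh, h _ (Nat.zero_le _), h _ (Nat.zero_le _)]
    simp only [zz]
    rw [h1, ext_self]
  | succ n ih =>
    intro δ h
    have := ih (sh δ) (fun j hj => h _ (by omega))
    rw [zz, this]
    rfl

lemma zz_eq {δ : ℕ → WithTop D} (h : V r δ) : zz lam r δ = ext (zz lam r (sh δ)) (lam δ) := by
  rw [← zz_stable r δ h.2]
  rfl

variable (h1 : ∀ δ δ' : ℕ → WithTop D, V r δ → V r δ' → (∀ j, δ j ≤ δ' j) →
    (∀ j, δ' j ≤ δ (j + 1)) → lam δ ≤ lam δ' ∨ lam δ' ≤ lam δ)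

include h1

lemma zz_red (m : ℕ) : ∀ δ : ℕ → WithTop D, V r δ → (∀ j, m ≤ j → δ j = ⊤) →
    Red (zz lam r δ) ∧ (zz lam r δ).head? = some (lam δ) ∧ (zz lam r δ).length ≤ m + 1 ∧
      [lam (fun _ => ⊤)] <:+ zz lam r δ := by
  induction m with
  | zero =>
    intro δ hV h
    have h2 : δ = fun _ => ⊤ := funext fun j => h j (Nat.zero_le _)
    subst h2
    have h3 : ∀ n, zz lam n (fun _ => ⊤) = [lam (fun _ => ⊤)] := by
      intro n
      induction n with
      | zero => rfl
      | succ n ih => rw [zz, sh_top, ih, ext_self]
    rw [h3]
    exact ⟨Red.one _, by simp, by simp, List.suffix_rfl⟩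
  | succ m ih =>
    intro δ hV h
    obtain ⟨k1, k2, k3, k4⟩ := ih (sh δ) hV.sh (fun j hj => h _ (by omega))
    rw [zz_eq hV]
    have hc : lam δ = lam (sh δ) ∨ Cp (lam δ) (lam (sh δ)) := by
      rcases h1 δ (sh δ) hV hV.sh (fun j => hV.1 (by omega)) (fun j => le_rfl) with h | h
      · rcases h.eq_or_lt with h | h
        · exact Or.inl h
        · exact Or.inr (Or.inl h)
      · rcases h.eq_or_lt with h | h
        · exact Or.inl h.symm
        · exact Or.inr (Or.inr h)
    generalize zz lam r (sh δ) = t at k1 k2 k3 k4 ⊢
    match t, k1, k2, k3, k4 with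
    | b :: t, k1, k2, k3, k4 =>
      simp only [List.head?_cons, Option.some.injEq] at k2
      refine ⟨red_ext k1 (by rw [k2]; exact hc), head_ext _ _, (length_ext _ _).trans (by omega),
        last_ext _ _ _ _ k4⟩

lemma zz_nb (hD : ∀ a b c : D, a < b → b < c → False) (m : ℕ) :
    ∀ δ δ' : ℕ → WithTop D, V r δ → V r δ' → (∀ j, m ≤ j → δ j = ⊤) → (∀ j, m ≤ j → δ' j = ⊤) →
      (∀ j, δ j ≤ δ' j) → (∀ j, δ' j ≤ δ (j + 1)) → Nb (zz lam r δ) (zz lam r δ') := by
  have hred : ∀ δ : ℕ → WithTop D, V r δ →
      Red (zz lam r δ) ∧ (zz lam r δ).head? = some (lam δ) := fun δ hV =>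
    ⟨(zz_red h1 r δ hV hV.2).1, (zz_red h1 r δ hV hV.2).2.1⟩
  -- the step
  have step : ∀ δ δ' : ℕ → WithTop D, V r δ → V r δ' → (∀ j, δ j ≤ δ' j) →
      (∀ j, δ' j ≤ δ (j + 1)) → Nb (zz lam r δ') (zz lam r (sh δ)) →
        Nb (zz lam r δ) (zz lam r δ') := by
    intro δ δ' hV hV' h2 h3 h4
    obtain ⟨r1, e1⟩ := hred δ hV
    obtain ⟨r2, e2⟩ := hred δ' hV'
    obtain ⟨r3, e3⟩ := hred (sh δ) hV.sh
    have c1 := h1 δ δ' hV hV' h2 h3
    have c2 := h1 δ' (sh δ) hV' hV.sh h3 (fun j => h2 (j + 1))
    have c3 := h1 δ (sh δ) hV hV.sh (fun j => hV.1 (by omega)) (fun j => le_rfl)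
    have hz := zz_eq (lam := lam) hV
    have hnb : Nb (zz lam r (sh δ)) (zz lam r δ) := by
      rw [hz]
      generalize zz lam r (sh δ) = t at r3
      match t, r3 with
      | b :: t, _ => exact nb_ext b t _
    by_cases hac : lam δ = lam (sh δ)
    · have : zz lam r δ = zz lam r (sh δ) := by
        refine eq_of_nb_head r3 r1 hnb e3 ?_
        rw [e1, hac]
      rw [this]
      exact h4.symm
    · by_cases hbc : lam δ' = lam (sh δ)
      · have : zz lam r δ' = zz lam r (sh δ) := by
          refine eq_of_nb_head r3 r2 h4.symm e3 ?_
          rw [e2, hbc]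
        rw [this]
        exact hnb.symm
      · have hab : lam δ = lam δ' := by
          by_contra hab
          have k1 : Cp (lam δ) (lam δ') := by
            rcases c1 with c | c
            · exact Or.inl (lt_of_le_of_ne c hab)
            · exact Or.inr (lt_of_le_of_ne c (Ne.symm hab))
          have k2 : Cp (lam δ') (lam (sh δ)) := by
            rcases c2 with c | c
            · exact Or.inl (lt_of_le_of_ne c hbc)
            · exact Or.inr (lt_of_le_of_ne c (Ne.symm hbc))
          have k3 : Cp (lam δ) (lam (sh δ)) := by
            rcases c3 with c | c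
            · exact Or.inl (lt_of_le_of_ne c hac)
            · exact Or.inr (lt_of_le_of_ne c (Ne.symm hac))
          rcases k1 with k1 | k1 <;> rcases k2 with k2 | k2 <;> rcases k3 with k3 | k3
          · exact hD _ _ _ k1 k2
          · exact hD _ _ _ k1 k2
          · exact hD _ _ _ k3 k2
          · exact hD _ _ _ k3 k1
          · exact hD _ _ _ k1 k3
          · exact hD _ _ _ k2 k3
          · exact hD _ _ _ k2 k1
          · exact hD _ _ _ k2 k1
        left
        rw [eq_ext_of_nb r3 r2 h4.symm e2, hz, hab]
  induction m with
  | zero =>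
    intro δ δ' _ _ h2 h3 _ _
    left
    have h4 : δ = fun _ => ⊤ := funext fun j => h2 j (Nat.zero_le _)
    have h5 : δ' = fun _ => ⊤ := funext fun j => h3 j (Nat.zero_le _)
    rw [h4, h5]
  | succ m ih =>
    intro δ δ' hV hV' h2 h3 h4 h5
    have k1 := ih (sh δ) (sh δ') hV.sh hV'.sh (fun j hj => h2 _ (by omega))
      (fun j hj => h3 _ (by omega)) (fun j => h4 (j + 1)) (fun j => h5 (j + 1))
    have k2 := step δ' (sh δ) hV' hV.sh h5 (fun j => h4 (j + 1)) k1
    exact step δ δ' hV hV' h4 h5 k2

/-- **There is no such labelling.** -/
theorem no_labelling (hD : ∀ a b c : D, a < b → b < c → False)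
    (h2 : ∀ δ : ℕ → WithTop D, V r δ → ∀ d : D, (∀ j, j < r → δ j ≤ (d : WithTop D)) →
      ¬ d ≤ lam δ) : False := by
  classical
  -- constant sequences
  let cst : D → ℕ → WithTop D := fun e j => if j < r then (e : WithTop D) else ⊤
  have hcV : ∀ e, V r (cst e) := by
    intro e
    refine ⟨fun a b hab => ?_, fun j hj => ?_⟩
    · simp only [cst]
      by_cases hb : b < r
      · rw [if_pos hb, if_pos (by omega)]
      · rw [if_neg hb]; exact le_top
    · simp only [cst]
      rw [if_neg (by omega)]
  have hcle : ∀ e, ∀ j, j < r → cst e j ≤ (e : WithTop D) := by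
    intro e j hj
    simp only [cst]
    rw [if_pos hj]
  have hz := fun δ hV => zz_red h1 r δ hV hV.2
  have hnb : ∀ δ δ' : ℕ → WithTop D, V r δ → V r δ' → (∀ j, δ j ≤ δ' j) →
      (∀ j, δ' j ≤ δ (j + 1)) → Nb (zz lam r δ) (zz lam r δ') := fun δ δ' hV hV' h3 h4 =>
    zz_nb h1 hD r δ δ' hV hV' hV.2 hV'.2 h3 h4
  -- the step
  have key : ∀ n : ℕ, ∃ (e : D) (t : List D), t.length = n ∧ (e :: t) <:+ zz lam r (cst e) ∧
      e :: t ≠ zz lam r (cst e) := by
    intro n
    induction n with
    | zero =>
      refine ⟨lam (fun _ => ⊤), [], rfl, (hz _ (hcV _)).2.2.2, fun h => ?_⟩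
      have h3 := (hz _ (hcV (lam (fun _ => ⊤)))).2.1
      rw [← h] at h3
      simp only [List.head?_cons, Option.some.injEq] at h3
      exact h2 _ (hcV _) _ (hcle _) h3.le
    | succ n ih =>
      obtain ⟨e, t, ht, h3, h4⟩ := ih
      obtain ⟨l, hl⟩ := h3
      have hl0 : l ≠ [] := by
        rintro rfl
        exact h4 (by simpa using hl)
      obtain ⟨l', b, rfl⟩ : ∃ l' b, l = l' ++ [b] :=
        ⟨l.dropLast, l.getLast hl0, (List.dropLast_append_getLast hl0).symm⟩
      have hl' : l' ++ (b :: e :: t) = zz lam r (cst e) := by
        rw [← hl]; simp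
      have hsuf : (b :: e :: t) <:+ zz lam r (cst e) := ⟨l', hl'⟩
      have hred : Red (b :: e :: t) := by
        refine red_suffix (l := l') ?_ (by simp)
        rw [hl']
        exact (hz _ (hcV e)).1
      have hcp := red_cp hred
      have hne : (b :: e :: t) ≠ zz lam r (cst b) := by
        intro h
        have h5 := (hz _ (hcV b)).2.1
        rw [← h] at h5
        simp only [List.head?_cons, Option.some.injEq] at h5
        exact h2 _ (hcV _) _ (hcle _) h5.le
      refine ⟨b, e :: t, by simp [ht], ?_, hne⟩
      rcases hcp with hbe | heb
      · -- `b < e`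
        let dl : ℕ → ℕ → WithTop D := fun k j =>
          if j < k ∧ j < r then (b : WithTop D) else if j < r then (e : WithTop D) else ⊤
        have hdV : ∀ k, V r (dl k) := by
          intro k
          refine ⟨fun i j hij => ?_, fun j hj => ?_⟩
          · simp only [dl]
            split_ifs <;> first | exact le_rfl | exact le_top | exact_mod_cast hbe.le | (exfalso; omega)
          · simp only [dl]
            rw [if_neg (by omega), if_neg (by omega)]
        have hdle : ∀ k j, j < r → dl k j ≤ (e : WithTop D) := by
          intro k j hj
          simp only [dl]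
          split_ifs
          · exact_mod_cast hbe.le
          · exact le_rfl
        have hall : ∀ k, (b :: e :: t) <:+ zz lam r (dl k) := by
          intro k
          induction k with
          | zero =>
            have : dl 0 = cst e := by
              funext j
              simp only [dl, cst]
              rw [if_neg (by omega)]
            rw [this]
            exact hsuf
          | succ k ihk =>
            by_contra hcon
            have hn := hnb (dl (k + 1)) (dl k) (hdV _) (hdV _) (fun j => by
              simp only [dl]
              split_ifs <;> first | exact le_rfl | exact le_top | exact_mod_cast hbe.le | (exfalso; omega))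
              (fun j => by
              simp only [dl]
              split_ifs <;> first | exact le_rfl | exact le_top | exact_mod_cast hbe.le | (exfalso; omega))
            obtain ⟨h5, a, h6⟩ := crossing hn.symm ihk hcon
            rw [h5] at h6
            simp only [List.cons.injEq] at h6
            have h7 := (hz _ (hdV (k + 1))).2.1
            rw [← h6.2] at h7
            simp only [List.head?_cons, Option.some.injEq] at h7
            exact h2 _ (hdV (k + 1)) e (hdle _) h7.le
        have : dl r = cst b := by
          funext j
          simp only [dl, cst]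
          by_cases hj : j < r
          · rw [if_pos ⟨hj, hj⟩, if_pos hj]
          · rw [if_neg (fun h => hj h.2), if_neg hj, if_neg hj]
        rw [← this]
        exact hall r
      · -- `e < b`
        let dl : ℕ → ℕ → WithTop D := fun k j =>
          if j + k < r then (e : WithTop D) else if j < r then (b : WithTop D) else ⊤
        have hdV : ∀ k, V r (dl k) := by
          intro k
          refine ⟨fun i j hij => ?_, fun j hj => ?_⟩
          · simp only [dl]
            split_ifs <;> first | exact le_rfl | exact le_top | exact_mod_cast heb.le | (exfalso; omega)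
          · simp only [dl]
            rw [if_neg (by omega), if_neg (by omega)]
        have hdle : ∀ k j, j < r → dl k j ≤ (b : WithTop D) := by
          intro k j hj
          simp only [dl]
          split_ifs
          · exact_mod_cast heb.le
          · exact le_rfl
        have hall : ∀ k, (b :: e :: t) <:+ zz lam r (dl k) := by
          intro k
          induction k with
          | zero =>
            have : dl 0 = cst e := by
              funext j
              simp only [dl, cst, Nat.add_zero]
              by_cases hj : j < r
              · rw [if_pos hj, if_pos hj]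
              · rw [if_neg hj, if_neg hj, if_neg hj]
            rw [this]
            exact hsuf
          | succ k ihk =>
            by_contra hcon
            have hn := hnb (dl k) (dl (k + 1)) (hdV _) (hdV _) (fun j => by
              simp only [dl]
              split_ifs <;> first | exact le_rfl | exact le_top | exact_mod_cast heb.le | (exfalso; omega))
              (fun j => by
              simp only [dl]
              split_ifs <;> first | exact le_rfl | exact le_top | exact_mod_cast heb.le | (exfalso; omega))
            obtain ⟨h5, a, h6⟩ := crossing hn ihk hcon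
            have h7 := (hz _ (hdV k)).2.1
            rw [h5] at h7
            simp only [List.head?_cons, Option.some.injEq] at h7
            exact h2 _ (hdV k) b (hdle _) h7.le
        have : dl r = cst b := by
          funext j
          simp only [dl, cst]
          by_cases hj : j < r
          · rw [if_neg (by omega), if_pos hj]
          · rw [if_neg (by omega), if_neg hj]
        rw [← this]
        exact hall r
  obtain ⟨e, t, ht, h3, h4⟩ := key r
  have h5 := (hz _ (hcV e)).2.2.1
  have h6 := h3.length_le
  simp only [List.length_cons] at h6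
  exact h4 (h3.eq_of_length (by simp only [List.length_cons]; omega))

end

end Pool.Agent.Helper44.GB
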